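import Mathlib

set_option autoImplicit false

namespace Pool.Agent.Results.MP_d395f7_lc.Definable

open Polynomial FirstOrder FirstOrder.Language FirstOrder.Ring Set Sum

section kit
variable {M : Type} [Ring M] [CompatibleRing M] {A : Set M} {α : Type}

lemma d_ex {Q : (α → M) → M → Prop}
    (h : A.Definable ring {w : α ⊕ Unit → M | Q (fun i => w (inl i)) (w (inr ()))}) :
    A.Definable ring {v | ∃ x, Q v x} := by
  convert h.exists_of_finite using 1
  ext v
  exact ⟨fun ⟨x, hx⟩ => ⟨fun _ => x, hx⟩, fun ⟨u, hu⟩ => ⟨u (), hu⟩⟩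

lemma d_all {Q : (α → M) → M → Prop}
    (h : A.Definable ring {w : α ⊕ Unit → M | Q (fun i => w (inl i)) (w (inr ()))}) :
    A.Definable ring {v | ∀ x, Q v x} := by
  convert h.forall_of_finite using 1
  ext v
  exact ⟨fun hx u => hx (u ()), fun hu x => hu fun _ => x⟩

lemma d_and {P Q : (α → M) → Prop} (h : A.Definable ring {v | P v})
    (h' : A.Definable ring {v | Q v}) : A.Definable ring {v | P v ∧ Q v} := h.inter h'

lemma d_or {P Q : (α → M) → Prop} (h : A.Definable ring {v | P v})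
    (h' : A.Definable ring {v | Q v}) : A.Definable ring {v | P v ∨ Q v} := h.union h'

lemma d_not {P : (α → M) → Prop} (h : A.Definable ring {v | P v}) :
    A.Definable ring {v | ¬ P v} := h.compl

lemma f_add {f g : (α → M) → M} (hf : A.DefinableFun ring f) (hg : A.DefinableFun ring g) :
    A.DefinableFun ring fun v => f v + g v := by
  have h : A.DefinableMap ring (fun v => ![f v, g v]) := by simp [DefinableMap, *]
  simpa using DefinableFun.comp h (DefinableFun.fun_symbol addFunc).of_empty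

lemma f_mul {f g : (α → M) → M} (hf : A.DefinableFun ring f) (hg : A.DefinableFun ring g) :
    A.DefinableFun ring fun v => f v * g v := by
  have h : A.DefinableMap ring (fun v => ![f v, g v]) := by simp [DefinableMap, *]
  simpa using DefinableFun.comp h (DefinableFun.fun_symbol mulFunc).of_empty

lemma f_zero : A.DefinableFun ring fun _ : α → M => 0 := by
  simpa using ((0 : ring.Term α).definableFun_realize (M := M)).of_empty (A := A)

lemma f_one : A.DefinableFun ring fun _ : α → M => 1 := by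
  simpa using ((1 : ring.Term α).definableFun_realize (M := M)).of_empty (A := A)

end kit

/-- `f ≡ b` modulo `X - a` -/
def Ev (f a b : ℂ[X]) : Prop := ∃ q, f + a * q = b + X * q

def Le (f p : ℂ[X]) : Prop := ∃ g, ∀ a a', ¬ a * a' = 1 ∨
  ∃ b, (b = 0 ∨ ∃ b', b * b' = 1) ∧ Ev f a' b ∧ Ev g a (p * b)

def Pw (p : ℂ[X]) : Prop := ¬ p = 0 ∧ ∀ a a', ¬ a * a' = 1 ∨ ¬ Ev p a 0

lemma Ev_iff (f b : ℂ[X]) (a : ℂ) : Ev f (C a) b ↔ f.eval a = b.eval a := by
  rw [← sub_eq_zero, ← eval_sub, ← IsRoot.def, ← dvd_iff_isRoot]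
  exact exists_congr fun q => ⟨fun h => by linear_combination h, fun h => by linear_combination h⟩

lemma unit_iff (a a' : ℂ[X]) (h : a * a' = 1) : ∃ c : ℂ, c ≠ 0 ∧ a = C c ∧ a' = C c⁻¹ := by
  obtain ⟨c, hc, rfl⟩ := Polynomial.isUnit_iff.1 (IsUnit.of_mul_eq_one _ h)
  refine ⟨c, hc.ne_zero, rfl, ?_⟩
  rw [← one_mul a', ← C_1, ← inv_mul_cancel₀ hc.ne_zero, C_mul, mul_assoc, h, mul_one]

lemma C_inv {c : ℂ} (h : c ≠ 0) : (C c * C c⁻¹ : ℂ[X]) = 1 := by
  rw [← C_mul, mul_inv_cancel₀ h, C_1]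

lemma Le_iff (f p : ℂ[X]) :
    Le f p ↔ ∃ g : ℂ[X], ∀ c : ℂ, c ≠ 0 → g.eval c = p.eval c * f.eval c⁻¹ := by
  refine exists_congr fun g => ⟨fun h c hc => ?_, fun h a a' => ?_⟩
  · obtain ⟨b, hb, h1, h2⟩ := (h _ _).resolve_left (not_not.2 (C_inv hc))
    obtain ⟨e, rfl⟩ : ∃ e, b = C e := by
      rcases hb with rfl | ⟨b', hb⟩
      · exact ⟨0, by simp⟩
      · obtain ⟨e, -, h, -⟩ := unit_iff _ _ hb; exact ⟨e, h⟩
    rw [Ev_iff] at h1 h2
    simp_all
  · by_cases ha : a * a' = 1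
    · obtain ⟨c, hc, rfl, rfl⟩ := unit_iff _ _ ha
      refine Or.inr ⟨C (f.eval c⁻¹), ?_, by simp [Ev_iff], by simp [Ev_iff, h c hc]⟩
      by_cases h0 : f.eval c⁻¹ = 0
      · exact Or.inl (by simp [h0])
      · exact Or.inr ⟨_, C_inv h0⟩
    · exact Or.inl ha

lemma eval_reflect (f : ℂ[X]) (n : ℕ) (h : f.natDegree ≤ n) (c : ℂ) (hc : c ≠ 0) :
    (reflect n f).eval c = c ^ n * f.eval c⁻¹ := by
  let _ := invertibleOfNonzero (inv_ne_zero hc)
  have := eval₂_reflect_mul_pow (RingHom.id ℂ) c⁻¹ n f h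
  rw [invOf_eq_inv, inv_inv, eval₂_id, eval₂_id] at this
  rw [← this, inv_pow]; field_simp

lemma Le_pow (f : ℂ[X]) (e : ℂ) (he : e ≠ 0) (n : ℕ) : Le f (C e * X ^ n) ↔ f.natDegree ≤ n := by
  rw [Le_iff]
  constructor
  · rintro ⟨g, hg⟩
    by_contra hc
    obtain ⟨k, hk⟩ : ∃ k, f.natDegree = n + k + 1 := ⟨f.natDegree - n - 1, by omega⟩
    have h1 : X ^ (k + 1) * g = C e * reflect f.natDegree f := by
      apply eq_of_infinite_eval_eq
      refine (Set.finite_singleton (0 : ℂ)).infinite_compl.mono fun c hc => ?_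
      have hc' : c ≠ 0 := hc
      simp only [mem_ofPred_eq, eval_mul, eval_pow, eval_X, eval_C, hg c hc',
        eval_reflect f _ le_rfl c hc']
      rw [hk]; ring
    have h2 := congrArg (fun q => q.coeff 0) h1
    simp only [mul_coeff_zero, coeff_X_pow, coeff_C_zero, coeff_reflect, revAt_zero] at h2
    have h3 : f.leadingCoeff = 0 := by simpa [he] using h2
    rw [leadingCoeff_eq_zero] at h3
    simp [h3] at hk
  · intro h
    exact ⟨C e * reflect n f, fun c hc => by simp [eval_reflect f n h c hc, mul_assoc]⟩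

lemma Pw_iff (p : ℂ[X]) : Pw p ↔ ∃ e : ℂ, e ≠ 0 ∧ ∃ n, p = C e * X ^ n := by
  constructor
  · rintro ⟨h0, h⟩
    obtain ⟨q, h1, h2⟩ := exists_eq_pow_rootMultiplicity_mul_and_not_dvd p h0 0
    have hq : q.degree = 0 := by
      by_contra hd
      obtain ⟨c, hc⟩ := IsAlgClosed.exists_root q hd
      by_cases hc0 : c = 0
      · exact h2 (dvd_iff_isRoot.2 (hc0 ▸ hc))
      · refine (h _ _).resolve_left (not_not.2 (C_inv hc0)) ((Ev_iff _ _ _).2 ?_)
        rw [h1, eval_mul, hc.eq_zero]; simp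
    rw [eq_C_of_degree_eq_zero hq] at h1
    refine ⟨q.coeff 0, fun h => h0 (by rw [h1, h]; simp), rootMultiplicity 0 p, ?_⟩
    rw [mul_comm]; simpa using h1
  · rintro ⟨e, he, n, rfl⟩
    refine ⟨by simp [he], fun a a' => ?_⟩
    by_cases ha : a * a' = 1
    · obtain ⟨c, hc, rfl, rfl⟩ := unit_iff _ _ ha
      exact Or.inr (by simp [Ev_iff, he, hc])
    · exact Or.inl ha

lemma deg_iff (f g : ℂ[X]) : f.degree = g.degree ↔ ((f = 0 ∧ g = 0) ∨ (¬ f = 0 ∧ ¬ g = 0 ∧
    ∀ p, ¬ Pw p ∨ (Le f p ∧ Le g p) ∨ (¬ Le f p ∧ ¬ Le g p))) := by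
  constructor
  · intro h
    by_cases hf : f = 0
    · exact Or.inl ⟨hf, degree_eq_bot.1 (by rw [← h, hf, degree_zero])⟩
    · refine Or.inr ⟨hf, fun hg => hf (by simpa [hg] using h), fun p => ?_⟩
      by_cases hp : Pw p
      · obtain ⟨e, he, n, rfl⟩ := (Pw_iff p).1 hp
        rw [Le_pow _ _ he, Le_pow _ _ he, natDegree_eq_of_degree_eq h]
        tauto
      · exact Or.inl hp
  · rintro (⟨rfl, rfl⟩ | ⟨hf, hg, h⟩)
    · rfl
    · have k : ∀ n, f.natDegree ≤ n ↔ g.natDegree ≤ n := fun n => by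
        have := (h _).resolve_left (not_not.2 ((Pw_iff _).2 ⟨1, one_ne_zero, n, rfl⟩))
        rw [Le_pow _ _ one_ne_zero, Le_pow _ _ one_ne_zero] at this
        tauto
      rw [degree_eq_natDegree hf, degree_eq_natDegree hg,
        le_antisymm ((k _).2 le_rfl) ((k _).1 le_rfl)]

theorem result [CompatibleRing ℂ[X]] :
    ({X} : Set ℂ[X]).Definable₂ ring {p : ℂ[X] × ℂ[X] | p.1.degree = p.2.degree} := by
  simp only [Definable₂, mem_ofPred_eq, deg_iff, Pw, Le, Ev]
  repeat' first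
    | exact DefinableFun.proj _
    | exact f_zero
    | exact f_one
    | exact definableFun_const _ _ rfl
    | apply f_add
    | apply f_mul
    | apply DefinableFun.ofPred_eq
    | apply d_and
    | apply d_or
    | apply d_not
    | apply d_ex
    | apply d_all

end Pool.Agent.Results.MP_d395f7_lc.Definable
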